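import Pool.Agent.H497R3.CondExp
import Pool.Agent.H497R3.Slow
import Pool.Agent.H497R3.GeoLaw

set_option autoImplicit false
open MeasureTheory ProbabilityTheory Filter Topology
open scoped ENNReal

namespace Pool.Agent.Results.MP_204ba2_pr.NoSpeedThreshold

/-- A law on cookie environments: a probability measure on `ℤ → ℕ → ℝ` which is almost surely
`[0,1]`-valued.  `ω x n` is the `(n+1)`-st cookie at site `x`. -/
def IsCookieLaw (P : Measure (ℤ → ℕ → ℝ)) : Prop :=
  IsProbabilityMeasure P ∧ ∀ᵐ ω ∂P, ∀ (x : ℤ) (n : ℕ), ω x n ∈ Set.Icc (0:ℝ) 1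

/-- (IID): the stacks are independent and identically distributed. -/
def IsIIDStacks (P : Measure (ℤ → ℕ → ℝ)) : Prop :=
  iIndepFun (fun (x : ℤ) (ω : ℤ → ℕ → ℝ) => ω x) P ∧
    ∀ x : ℤ, IdentDistrib (fun ω : ℤ → ℕ → ℝ => ω x) (fun ω => ω 0) P P

/-- (WEL). -/
def IsWEL (P : Measure (ℤ → ℕ → ℝ)) : Prop :=
  ∀ x : ℤ, 0 < P {ω | ∀ n, 0 < ω x n} ∧ 0 < P {ω | ∀ n, ω x n < 1}

/-- partial sums of the drift at the origin, as extended reals -/
noncomputable def partialDrift (ω : ℤ → ℕ → ℝ) (N : ℕ) : EReal :=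
  ((∑ i ∈ Finset.range N, (2 * ω 0 i - 1) : ℝ) : EReal)

/-- the total drift stored at the origin (the limit of the partial sums when it exists) -/
noncomputable def siteDrift (ω : ℤ → ℕ → ℝ) : EReal := limsup (partialDrift ω) atTop

/-- the expected drift per site is well defined: the partial sums converge almost surely in the
extended reals and the negative part of the limit is integrable -/
def DriftWellDefined (P : Measure (ℤ → ℕ → ℝ)) : Prop :=
  (∀ᵐ ω ∂P, ∃ s : EReal, Tendsto (partialDrift ω) atTop (𝓝 s)) ∧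
    (∫⁻ ω, (-(siteDrift ω)).toENNReal ∂P) < ⊤

/-- the expected drift per site `δ` -/
noncomputable def delta (P : Measure (ℤ → ℕ → ℝ)) : EReal :=
  ((∫⁻ ω, (siteDrift ω).toENNReal ∂P : ℝ≥0∞) : EReal) -
    ((∫⁻ ω, (-(siteDrift ω)).toENNReal ∂P : ℝ≥0∞) : EReal)

/-- `X 0, X 1, …` are the successive excited walkers (`X k` is the walker number `k + 1`) on the
iterated leftover environments `env 0 = W, env 1, …` on a probability space `(Θ, μ)`, where `W`
has law `P`: all walkers start at `0` and make nearest neighbour steps, and conditionally on the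
initial environment, the previous walkers and its own past, a walker steps to the right with
probability the value of the cookie it finds. -/
structure IsWalkerSystem (P : Measure (ℤ → ℕ → ℝ)) {Θ : Type} [MeasurableSpace Θ]
    (μ : Measure Θ) (W : Θ → ℤ → ℕ → ℝ) (X : ℕ → Θ → ℕ → ℤ)
    (env : ℕ → Θ → ℤ → ℕ → ℝ) : Prop where
  prob : IsProbabilityMeasure μ
  meas_env : Measurable W
  law_env : μ.map W = P
  meas_walk : ∀ j, Measurable (X j)
  env_zero : env 0 = W
  env_transient : ∀ (j : ℕ) (θ : Θ) (x : ℤ) (n : ℕ),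
    Tendsto (fun m => |X j θ m|) atTop atTop →
      env (j+1) θ x n = env j θ x (n + Nat.card {m : ℕ // X j θ m = x})
  env_recurrent : ∀ (j : ℕ) (θ : Θ) (x : ℤ) (n : ℕ),
    ¬ Tendsto (fun m => |X j θ m|) atTop atTop → env (j+1) θ x n = 1/2
  start : ∀ (j : ℕ) (θ : Θ), X j θ 0 = 0
  nearest : ∀ (j : ℕ) (θ : Θ) (n : ℕ),
    X j θ (n+1) = X j θ n + 1 ∨ X j θ (n+1) = X j θ n - 1
  transition : ∀ (j n : ℕ),
    condExp
      (MeasurableSpace.comap
        (fun θ => (W θ, (fun i : Fin j => X (i : ℕ) θ), (fun m : Fin (n+1) => X j θ (m : ℕ))))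
        inferInstance)
      μ (Set.indicator {θ | X j θ (n+1) = X j θ n + 1} (fun _ => (1:ℝ)))
    =ᵐ[μ] fun θ => env j θ (X j θ n) ((Finset.range n).filter (fun m => X j θ m = X j θ n)).card

open Pool.Agent.H497R3

/-- generic fact: where the conditional probability of an event is 0 (or 1) the event fails
(or holds) -/
theorem condExp_forced {Θ : Type} {m0 : MeasurableSpace Θ} {μ : Measure Θ}
    [IsProbabilityMeasure μ] {R : Set Θ}
    (hR : MeasurableSet R) {g : Θ → ℝ} {m : MeasurableSpace Θ} (hm : m ≤ m0)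
    (hg : condExp m μ (R.indicator (fun _ => (1:ℝ))) =ᵐ[μ] g) :
    ∀ᵐ θ ∂μ, (g θ = 0 → θ ∉ R) ∧ (g θ = 1 → θ ∈ R) := by
  set h := condExp m μ (R.indicator (fun _ => (1:ℝ))) with hh
  have hsm : StronglyMeasurable[m] h := stronglyMeasurable_condExp
  have hint : Integrable (R.indicator (fun _ => (1:ℝ))) μ :=
    (integrable_const (1:ℝ)).indicator hR
  have h0m : MeasurableSet[m] {θ | h θ = 0} := hsm.measurable (measurableSet_singleton 0)
  have h1m : MeasurableSet[m] {θ | h θ = 1} := hsm.measurable (measurableSet_singleton 1)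
  have e0 : μ (R ∩ {θ | h θ = 0}) = 0 := by
    have := setIntegral_condExp hm hint h0m
    rw [← hh, setIntegral_indicator hR] at this
    have h2 : ∫ θ in {θ | h θ = 0}, h θ ∂μ = 0 := by
      rw [setIntegral_congr_fun (hm _ h0m) (g := fun _ => (0:ℝ)) (fun θ hθ => hθ)]
      simp
    rw [h2] at this
    simp only [integral_const, smul_eq_mul, mul_one, MeasurableSet.univ,
      measureReal_restrict_apply, Set.univ_inter] at this
    rw [Set.inter_comm]
    exact (measureReal_eq_zero_iff (by finiteness)).mp this.symm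
  have e1 : μ ({θ | h θ = 1} \ R) = 0 := by
    have := setIntegral_condExp hm hint h1m
    rw [← hh, setIntegral_indicator hR] at this
    have h2 : ∫ θ in {θ | h θ = 1}, h θ ∂μ = μ.real {θ | h θ = 1} := by
      rw [setIntegral_congr_fun (hm _ h1m) (g := fun _ => (1:ℝ)) (fun θ hθ => hθ)]
      simp
    rw [h2] at this
    simp only [integral_const, smul_eq_mul, mul_one, MeasurableSet.univ,
      measureReal_restrict_apply, Set.univ_inter] at this
    have hadd := measureReal_inter_add_diff (μ := μ) (s := {θ | h θ = 1}) hR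
    have h3 : μ.real ({θ | h θ = 1} \ R) = 0 := by linarith
    exact (measureReal_eq_zero_iff (by finiteness)).mp h3
  have a0 : ∀ᵐ θ ∂μ, θ ∉ R ∩ {θ | h θ = 0} := measure_eq_zero_iff_ae_notMem.mp e0
  have a1 : ∀ᵐ θ ∂μ, θ ∉ {θ | h θ = 1} \ R := measure_eq_zero_iff_ae_notMem.mp e1
  filter_upwards [a0, a1, hg] with θ t0 t1 t2
  constructor
  · intro hg0 hR'
    exact t0 ⟨hR', by rw [Set.mem_setOf_eq, t2]; exact hg0⟩
  · intro hg1
    by_contra hR'
    exact t1 ⟨by rw [Set.mem_setOf_eq, t2]; exact hg1, hR'⟩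

/-- number of leading cookies equal to `v`, truncated at `K` -/
noncomputable def pile (v : ℝ) (K : ℕ) (s : ℕ → ℝ) : ℕ := by
  classical
  exact ∑ k ∈ Finset.range K, if (∀ i ∈ Finset.range (k+1), s i = v) then 1 else 0

theorem measurable_pile (v : ℝ) (K : ℕ) : Measurable (pile v K) := by
  classical
  unfold pile
  refine Finset.measurable_fun_sum _ fun k _ => ?_
  refine Measurable.ite ?_ measurable_const measurable_const
  have : {s : ℕ → ℝ | ∀ i ∈ Finset.range (k+1), s i = v} =
      ⋂ i ∈ Finset.range (k+1), {s : ℕ → ℝ | s i = v} := by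
    ext s; simp
  rw [this]
  refine Finset.measurableSet_biInter _ fun i _ => ?_
  have hm : Measurable (fun s : ℕ → ℝ => s i) := measurable_pi_apply i
  exact hm (measurableSet_singleton v)

theorem pile_le (v : ℝ) (K : ℕ) (s : ℕ → ℝ) : pile v K s ≤ K := by
  classical
  unfold pile
  calc (∑ k ∈ Finset.range K, if (∀ i ∈ Finset.range (k+1), s i = v) then 1 else 0)
      ≤ ∑ k ∈ Finset.range K, 1 := Finset.sum_le_sum fun k _ => by split_ifs <;> simp
    _ = K := by simp

theorem pile_spec (v : ℝ) (K : ℕ) (s : ℕ → ℝ) (k : ℕ) (hk : k < pile v K s) : s k = v := by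
  classical
  by_contra hne
  have : pile v K s ≤ k := by
    unfold pile
    rw [← Finset.sum_filter_add_sum_filter_not (Finset.range K) (fun j => j < k)]
    have h2 : (∑ j ∈ (Finset.range K).filter (fun j => ¬ j < k),
        if (∀ i ∈ Finset.range (j+1), s i = v) then 1 else 0) = 0 := by
      apply Finset.sum_eq_zero
      intro j hj
      rw [if_neg]
      intro h
      simp only [Finset.mem_filter, not_lt] at hj
      exact hne (h k (Finset.mem_range.mpr (by omega)))
    rw [h2, add_zero]
    calc (∑ j ∈ (Finset.range K).filter (fun j => j < k),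
        if (∀ i ∈ Finset.range (j+1), s i = v) then 1 else 0)
        ≤ ∑ j ∈ (Finset.range K).filter (fun j => j < k), 1 :=
          Finset.sum_le_sum fun k _ => by split_ifs <;> simp
      _ = ((Finset.range K).filter (fun j => j < k)).card := by simp
      _ ≤ (Finset.range k).card := by
          apply Finset.card_le_card
          intro j hj
          simp only [Finset.mem_filter] at hj
          exact Finset.mem_range.mpr hj.2
      _ = k := by simp
  omega

theorem le_pile (v : ℝ) (K : ℕ) (s : ℕ → ℝ) (h : ∀ i, i < K → s i = v) : pile v K s = K := by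
  classical
  unfold pile
  rw [Finset.sum_congr rfl (g := fun _ => 1)]
  · simp
  · intro k hk
    rw [if_pos]
    intro i hi
    have h1 := Finset.mem_range.mp hk
    have h2 := Finset.mem_range.mp hi
    exact h i (by omega)


/-! ### the law -/

open Pool.Agent.H497R3

/-- the stack with label `i` (for the parameter `D`): label `0` is constantly `1/2`, label `1`
has `4 * D` cookies `1` followed by `1/2`, an even label `i ≥ 2` has `4 ^ i` cookies `0`, then
`4 ^ i` cookies `1`, then `1/2`; an odd label `i ≥ 3` has `4 ^ i` cookies `1`, then `4 ^ i`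
cookies `0`, then `1/2`. -/
noncomputable def stk (D : ℕ) (i k : ℕ) : ℝ :=
  if i = 0 then 1/2
  else if i = 1 then (if k < 4 * D then 1 else 1/2)
  else if i % 2 = 0 then (if k < 4 ^ i then 0 else if k < 2 * 4 ^ i then 1 else 1/2)
  else (if k < 4 ^ i then 1 else if k < 2 * 4 ^ i then 0 else 1/2)

theorem stk_values (D i k : ℕ) : stk D i k = 0 ∨ stk D i k = 1/2 ∨ stk D i k = 1 := by
  unfold stk
  split_ifs <;> simp

theorem stk_mem (D i k : ℕ) : stk D i k ∈ Set.Icc (0:ℝ) 1 := by
  rcases stk_values D i k with h | h | h <;> rw [h] <;> norm_num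

/-- total drift of the stack with label `i` -/
noncomputable def tot (D : ℕ) (i : ℕ) : ℝ := if i = 1 then 4 * D else 0

theorem tot_nonneg (D i : ℕ) : 0 ≤ tot D i := by
  unfold tot
  split_ifs <;> positivity

theorem partial_sum_stk (D i N : ℕ) (hN : 2 * 4 ^ i + 4 * D ≤ N) :
    ∑ k ∈ Finset.range N, (2 * stk D i k - 1) = tot D i := by
  have hsplit : ∀ (f : ℕ → ℝ) (M : ℕ), M ≤ N → (∀ k, M ≤ k → f k = 0) →
      ∑ k ∈ Finset.range N, f k = ∑ k ∈ Finset.range M, f k := by
    intro f M hM hf
    rw [← Finset.sum_subset (Finset.range_mono hM)]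
    intro k _ hk
    exact hf k (by simpa using hk)
  rcases Nat.lt_or_ge i 2 with hi | hi
  · interval_cases i
    · simp [stk, tot]
    · rw [hsplit _ (4 * D) (by omega) (by
        intro k hk
        simp only [stk, if_neg (show ¬ (1 = 0) by norm_num), if_true,
          if_neg (show ¬ (k < 4 * D) by omega)]
        norm_num)]
      rw [Finset.sum_congr rfl (g := fun _ => (1:ℝ))]
      · simp [tot]
      · intro k hk
        simp only [stk, if_neg (show ¬ (1 = 0) by norm_num), if_true,
          if_pos (Finset.mem_range.mp hk)]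
        norm_num
  · have h0 : i ≠ 0 := by omega
    have h1 : i ≠ 1 := by omega
    rw [tot, if_neg h1]
    have hM : 2 * 4 ^ i = 4 ^ i + 4 ^ i := by ring
    rw [hsplit _ (4 ^ i + 4 ^ i) (by omega) (by
      intro k hk
      unfold stk
      rw [if_neg h0, if_neg h1]
      split_ifs <;> first | omega | norm_num)]
    rw [Finset.sum_range_add]
    by_cases hp : i % 2 = 0
    · rw [Finset.sum_congr rfl (g := fun _ => (-1:ℝ)), Finset.sum_congr rfl (g := fun _ => (1:ℝ))
        (s₁ := Finset.range (4 ^ i)) (f := fun x => 2 * stk D i (4 ^ i + x) - 1)]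
      · simp
      · intro k hk
        have := Finset.mem_range.mp hk
        unfold stk
        rw [if_neg h0, if_neg h1, if_pos hp, if_neg (by omega), if_pos (by omega)]
        norm_num
      · intro k hk
        have := Finset.mem_range.mp hk
        unfold stk
        rw [if_neg h0, if_neg h1, if_pos hp, if_pos (by omega)]
        norm_num
    · rw [Finset.sum_congr rfl (g := fun _ => (1:ℝ)), Finset.sum_congr rfl (g := fun _ => (-1:ℝ))
        (s₁ := Finset.range (4 ^ i)) (f := fun x => 2 * stk D i (4 ^ i + x) - 1)]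
      · simp
      · intro k hk
        have := Finset.mem_range.mp hk
        unfold stk
        rw [if_neg h0, if_neg h1, if_neg hp, if_neg (by omega), if_pos (by omega)]
        norm_num
      · intro k hk
        have := Finset.mem_range.mp hk
        unfold stk
        rw [if_neg h0, if_neg h1, if_neg hp, if_pos (by omega)]
        norm_num

/-- partial drift of a stack -/
noncomputable def pd (s : ℕ → ℝ) (N : ℕ) : EReal :=
  ((∑ i ∈ Finset.range N, (2 * s i - 1) : ℝ) : EReal)

theorem measurable_pd (N : ℕ) : Measurable (fun s : ℕ → ℝ => pd s N) := by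
  unfold pd
  apply Measurable.coe_real_ereal
  exact Finset.measurable_fun_sum _ fun i _ =>
    ((measurable_pi_apply i).const_mul 2).sub_const 1

theorem tendsto_pd (D i : ℕ) : Tendsto (pd (stk D i)) atTop (𝓝 ((tot D i : ℝ) : EReal)) := by
  apply tendsto_const_nhds.congr'
  filter_upwards [eventually_ge_atTop (2 * 4 ^ i + 4 * D)] with N hN
  unfold pd
  rw [partial_sum_stk D i N hN]

theorem limsup_pd (D i : ℕ) : limsup (pd (stk D i)) atTop = ((tot D i : ℝ) : EReal) :=
  (tendsto_pd D i).limsup_eq

theorem drift_wd (D : ℕ) : DriftWellDefined (labelLaw (stk D)) := by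
  have hm : Measurable (fun s : ℕ → ℝ => (-(limsup (pd s) atTop)).toENNReal) :=
    (Measurable.limsup measurable_pd).neg.ereal_toENNReal
  constructor
  · unfold labelLaw
    have hconv : MeasurableSet {ω : ℤ → ℕ → ℝ | ∃ s : EReal, Tendsto (partialDrift ω) atTop (𝓝 s)} := by
      apply measurableSet_exists_tendsto
      intro N
      exact (measurable_pd N).comp (measurable_pi_apply 0)
    have hml : Measurable (fun (l : ℤ → ℕ) (x : ℤ) => stk D (l x)) :=
      measurable_pi_lambda _ fun x =>
        (measurable_of_countable (stk D)).comp (measurable_pi_apply x)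
    rw [ae_map_iff hml.aemeasurable hconv]
    exact ae_of_all _ fun l => ⟨_, tendsto_pd D (l 0)⟩
  · have h := lintegral_labelLaw_zero (stk D)
      (fun s => (-(limsup (pd s) atTop)).toENNReal) hm
    have h2 : ∫⁻ ω, (-(siteDrift ω)).toENNReal ∂(labelLaw (stk D)) = 0 := by
      refine Eq.trans h ?_
      rw [ENNReal.tsum_eq_zero]
      intro i
      rw [limsup_pd]
      have : (-((tot D i : ℝ) : EReal)).toENNReal = 0 := by
        rw [← EReal.coe_neg, EReal.toENNReal_eq_zero_iff]
        exact_mod_cast neg_nonpos.mpr (tot_nonneg D i)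
      rw [this, mul_zero]
    rw [h2]
    exact ENNReal.zero_lt_top

theorem delta_eq (D : ℕ) : delta (labelLaw (stk D)) = ((D : ℝ) : EReal) := by
  have hm : Measurable (fun s : ℕ → ℝ => (-(limsup (pd s) atTop)).toENNReal) :=
    (Measurable.limsup measurable_pd).neg.ereal_toENNReal
  have hm' : Measurable (fun s : ℕ → ℝ => (limsup (pd s) atTop).toENNReal) :=
    (Measurable.limsup measurable_pd).ereal_toENNReal
  have h2 : ∫⁻ ω, (-(siteDrift ω)).toENNReal ∂(labelLaw (stk D)) = 0 := by
    have h := lintegral_labelLaw_zero (stk D)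
      (fun s => (-(limsup (pd s) atTop)).toENNReal) hm
    refine Eq.trans h ?_
    rw [ENNReal.tsum_eq_zero]
    intro i
    rw [limsup_pd]
    have : (-((tot D i : ℝ) : EReal)).toENNReal = 0 := by
      rw [← EReal.coe_neg, EReal.toENNReal_eq_zero_iff]
      exact_mod_cast neg_nonpos.mpr (tot_nonneg D i)
    rw [this, mul_zero]
  have h3 : ∫⁻ ω, (siteDrift ω).toENNReal ∂(labelLaw (stk D)) = (D : ℝ≥0∞) := by
    have h := lintegral_labelLaw_zero (stk D)
      (fun s => (limsup (pd s) atTop).toENNReal) hm'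
    refine Eq.trans h ?_
    rw [tsum_eq_single 1]
    · rw [limsup_pd]
      unfold tot
      rw [if_pos rfl]
      have : (((4 * D : ℝ)) : EReal).toENNReal = 4 * (D : ℝ≥0∞) := by
        rw [EReal.toENNReal_of_ne_top (EReal.coe_ne_top _), EReal.toReal_coe,
          ENNReal.ofReal_mul (by norm_num)]
        simp
      rw [this, ← mul_assoc]
      have h4 : ((2:ℝ≥0∞)⁻¹)^(1+1) * 4 = 1 := by
        rw [← ENNReal.inv_pow]
        have : ((2:ℝ≥0∞))^(1+1) = 4 := by norm_num
        rw [this]
        exact ENNReal.inv_mul_cancel (by norm_num) (by norm_num)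
      rw [h4, one_mul]
    · intro i hi
      rw [limsup_pd]
      unfold tot
      rw [if_neg hi]
      simp
  unfold delta
  rw [h2, h3]
  simp only [EReal.coe_ennreal_zero, sub_zero]
  rw [show (D : ℝ≥0∞) = ((D : NNReal) : ℝ≥0∞) by simp]
  rfl


/-- piles in front of the walker: superlinear growth -/
theorem piles_ae (P : Measure (ℤ → ℕ → ℝ)) [IsProbabilityMeasure P] (hiid : IsIIDStacks P)
    (v : ℝ) (s : ℕ → ℤ) (hs : Function.Injective s)
    (hbig : ∀ C : ℝ, ∃ K : ℕ, C < K * P.real {ω | ∀ k ∈ Finset.range K, ω 0 k = v}) :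
    ∀ᵐ ω ∂P, ∀ C : ℝ, ∃ a : ℕ → ℕ, (∀ i k, k < a i → ω (s i) k = v) ∧
      ∀ᶠ N : ℕ in atTop, C * N ≤ ((∑ i ∈ Finset.range N, a i : ℕ) : ℝ) := by
  have hmp : ∀ K, Measurable (fun t : ℕ → ℝ => ((pile v K t : ℕ) : ℝ)) := fun K =>
    (measurable_of_countable (fun n : ℕ => (n : ℝ))).comp (measurable_pile v K)
  have lln : ∀ K : ℕ, ∀ᵐ ω ∂P, Tendsto
      (fun n : ℕ => (∑ i ∈ Finset.range n, ((pile v K (ω (s i)) : ℕ) : ℝ)) / n) atTop
      (𝓝 (∫ ω, ((pile v K (ω (s 0)) : ℕ) : ℝ) ∂P)) := by
    intro K
    refine strong_law_ae_real (fun i (ω : ℤ → ℕ → ℝ) => ((pile v K (ω (s i)) : ℕ) : ℝ)) ?_ ?_ ?_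
    · refine Integrable.of_bound (C := K)
        (((hmp K).comp (measurable_pi_apply (s 0))).aestronglyMeasurable) (ae_of_all _ fun ω => ?_)
      rw [Real.norm_eq_abs, abs_of_nonneg (by positivity)]
      exact_mod_cast pile_le v K _
    · intro i j hij
      have h1 := hiid.1.indepFun (fun h => hij (hs h))
      exact h1.comp (hmp K) (hmp K)
    · intro i
      have h1 := (hiid.2 (s i)).trans (hiid.2 (s 0)).symm
      exact h1.comp (hmp K)
  have hmean : ∀ K : ℕ, (K:ℝ) * P.real {ω | ∀ k ∈ Finset.range K, ω 0 k = v} ≤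
      ∫ ω, ((pile v K (ω (s 0)) : ℕ) : ℝ) ∂P := by
    intro K
    have hset : MeasurableSet {t : ℕ → ℝ | ∀ k ∈ Finset.range K, t k = v} := by
      have : {t : ℕ → ℝ | ∀ k ∈ Finset.range K, t k = v} =
          ⋂ k ∈ Finset.range K, {t : ℕ → ℝ | t k = v} := by
        ext t; simp
      rw [this]
      refine Finset.measurableSet_biInter _ fun i _ => ?_
      have hm : Measurable (fun t : ℕ → ℝ => t i) := measurable_pi_apply i
      exact hm (measurableSet_singleton v)
    have h0 : P.real {ω | ∀ k ∈ Finset.range K, ω 0 k = v} =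
        P.real {ω | ∀ k ∈ Finset.range K, ω (s 0) k = v} := by
      have := (hiid.2 (s 0)).measure_mem_eq hset
      simp only [Measure.real]
      congr 1
      exact this.symm
    rw [h0]
    have hset' : MeasurableSet {ω : ℤ → ℕ → ℝ | ∀ k ∈ Finset.range K, ω (s 0) k = v} := by
      have hm : Measurable (fun ω : ℤ → ℕ → ℝ => ω (s 0)) := measurable_pi_apply (s 0)
      exact hm hset
    calc (K:ℝ) * P.real {ω | ∀ k ∈ Finset.range K, ω (s 0) k = v}
        = ∫ ω, {ω : ℤ → ℕ → ℝ | ∀ k ∈ Finset.range K, ω (s 0) k = v}.indicator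
            (fun _ => (K:ℝ)) ω ∂P := by
          rw [integral_indicator hset']
          simp [mul_comm]
      _ ≤ ∫ ω, ((pile v K (ω (s 0)) : ℕ) : ℝ) ∂P := by
          apply integral_mono
          · exact (integrable_const (K:ℝ)).indicator hset'
          · refine Integrable.of_bound (C := K)
              (((hmp K).comp (measurable_pi_apply (s 0))).aestronglyMeasurable)
              (ae_of_all _ fun ω => ?_)
            rw [Real.norm_eq_abs, abs_of_nonneg (by positivity)]
            exact_mod_cast pile_le v K _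
          · intro ω
            by_cases h : ω ∈ {ω : ℤ → ℕ → ℝ | ∀ k ∈ Finset.range K, ω (s 0) k = v}
            · rw [Set.indicator_of_mem h]
              have : pile v K (ω (s 0)) = K := le_pile v K _ fun i hi =>
                h i (Finset.mem_range.mpr hi)
              simp [this]
            · rw [Set.indicator_of_notMem h]
              positivity
  filter_upwards [ae_all_iff.mpr lln] with ω hω
  intro C
  obtain ⟨K, hK⟩ := hbig C
  refine ⟨fun i => pile v K (ω (s i)), fun i k hk => pile_spec v K _ k hk, ?_⟩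
  have h1 : C < ∫ ω, ((pile v K (ω (s 0)) : ℕ) : ℝ) ∂P := hK.trans_le (hmean K)
  have h2 := (hω K).eventually_const_lt h1
  filter_upwards [h2, eventually_gt_atTop 0] with N hN hN0
  have hN' : (0:ℝ) < N := by exact_mod_cast hN0
  rw [lt_div_iff₀ hN'] at hN
  push_cast
  exact hN.le

theorem big_law (D : ℕ) (v : ℝ) (r : ℕ) (hr : ∀ j : ℕ, ∀ k, k < 4 ^ (2 * j + 2 + r) →
    stk D (2 * j + 2 + r) k = v) (C : ℝ) :
    ∃ K : ℕ, C < K * (labelLaw (stk D)).real {ω | ∀ k ∈ Finset.range K, ω 0 k = v} := by
  obtain ⟨j, hj⟩ := exists_nat_gt C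
  refine ⟨4 ^ (2 * j + 2 + r), ?_⟩
  set i := 2 * j + 2 + r with hi
  have hset : MeasurableSet {t : ℕ → ℝ | ∀ k ∈ Finset.range (4 ^ i), t k = v} := by
    have : {t : ℕ → ℝ | ∀ k ∈ Finset.range (4 ^ i), t k = v} =
        ⋂ k ∈ Finset.range (4 ^ i), {t : ℕ → ℝ | t k = v} := by
      ext t; simp
    rw [this]
    refine Finset.measurableSet_biInter _ fun i _ => ?_
    have hm : Measurable (fun t : ℕ → ℝ => t i) := measurable_pi_apply i
    exact hm (measurableSet_singleton v)
  have h1 := labelLaw_site_ge (stk D) 0 _ hset i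
    (fun k hk => hr j k (Finset.mem_range.mp hk))
  have h2 : ((1/2:ℝ))^(i+1) ≤ (labelLaw (stk D)).real
      {ω | ∀ k ∈ Finset.range (4 ^ i), ω 0 k = v} := by
    have h3 := ENNReal.toReal_mono (measure_ne_top _ _) h1
    refine le_trans (le_of_eq ?_) h3
    simp
  have h4 : ((4:ℝ)^i) * (1/2)^(i+1) = 2^i / 2 := by
    rw [pow_succ, ← mul_assoc, ← mul_pow]
    norm_num
    ring
  have h5 : (j:ℝ) < 2 ^ i / 2 := by
    have h6 : (i:ℝ) < 2 ^ i := by exact_mod_cast Nat.lt_two_pow_self
    have h7 : (2:ℝ) * j + 2 ≤ i := by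
      rw [hi]; push_cast
      have : (0:ℝ) ≤ r := by positivity
      linarith
    linarith
  push_cast
  calc C < j := hj
    _ < 2 ^ i / 2 := h5
    _ = ((4:ℝ)^i) * (1/2)^(i+1) := h4.symm
    _ ≤ _ := by gcongr

/-- **Zero speed for every value of the drift.**  For every natural number `D` there is a law of
i.i.d. cookie stacks satisfying (WEL), with well defined expected drift per site `δ = D`, such
that the first excited random walk has speed `0` almost surely (in every realisation of the
walker system, and realisations exist).  In particular, for `D ≥ 3` and `k = 1` one has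
`k < δ - 1` and `v_1 = 0`. -/
theorem result : ∀ D : ℕ, ∃ P : Measure (ℤ → ℕ → ℝ),
    IsCookieLaw P ∧ IsIIDStacks P ∧ IsWEL P ∧ DriftWellDefined P ∧ delta P = ((D : ℝ) : EReal) ∧
    (∃ (Θ : Type) (_ : MeasurableSpace Θ) (μ : Measure Θ) (W : Θ → ℤ → ℕ → ℝ)
      (X : ℕ → Θ → ℕ → ℤ) (env : ℕ → Θ → ℤ → ℕ → ℝ), IsWalkerSystem P μ W X env) ∧
    (∀ (Θ : Type) [MeasurableSpace Θ] (μ : Measure Θ) (W : Θ → ℤ → ℕ → ℝ)
      (X : ℕ → Θ → ℕ → ℤ) (env : ℕ → Θ → ℤ → ℕ → ℝ), IsWalkerSystem P μ W X env →
        ∀ᵐ θ ∂μ, Tendsto (fun n : ℕ => (X 0 θ n : ℝ) / n) atTop (𝓝 0)) := by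
  intro D
  have hIID : IsIIDStacks (labelLaw (stk D)) := ⟨labelLaw_iIndep _, labelLaw_ident _⟩
  refine ⟨labelLaw (stk D), ⟨inferInstance, ?_⟩, hIID, ?_, drift_wd D, delta_eq D, ?_, ?_⟩
  · have h := labelLaw_ae_of_label (stk D) {t | ∀ n, t n ∈ Set.Icc (0:ℝ) 1} ?_
      (fun i n => stk_mem D i n)
    · filter_upwards [h] with ω hω
      exact hω
    · have : {t : ℕ → ℝ | ∀ n, t n ∈ Set.Icc (0:ℝ) 1} = ⋂ n, {t : ℕ → ℝ | t n ∈ Set.Icc (0:ℝ) 1} := by
        ext t; simp
      rw [this]
      refine MeasurableSet.iInter fun n => ?_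
      have hm : Measurable (fun t : ℕ → ℝ => t n) := measurable_pi_apply n
      exact hm measurableSet_Icc
  · intro x
    constructor
    · have hset : MeasurableSet {t : ℕ → ℝ | ∀ n, 0 < t n} := by
        have : {t : ℕ → ℝ | ∀ n, 0 < t n} = ⋂ n, {t : ℕ → ℝ | 0 < t n} := by ext t; simp
        rw [this]
        refine MeasurableSet.iInter fun n => ?_
        have hm : Measurable (fun t : ℕ → ℝ => t n) := measurable_pi_apply n
        exact hm measurableSet_Ioi
      refine lt_of_lt_of_le ?_ (labelLaw_site_ge (stk D) x _ hset 0 ?_)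
      · exact ENNReal.pow_pos (by simp) _
      · intro n; simp [stk]
    · have hset : MeasurableSet {t : ℕ → ℝ | ∀ n, t n < 1} := by
        have : {t : ℕ → ℝ | ∀ n, t n < 1} = ⋂ n, {t : ℕ → ℝ | t n < 1} := by ext t; simp
        rw [this]
        refine MeasurableSet.iInter fun n => ?_
        have hm : Measurable (fun t : ℕ → ℝ => t n) := measurable_pi_apply n
        exact hm measurableSet_Iio
      refine lt_of_lt_of_le ?_ (labelLaw_site_ge (stk D) x _ hset 0 ?_)
      · exact ENNReal.pow_pos (by simp) _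
      · intro n; simp only [stk, if_true]; norm_num
  · -- existence of the walker system
    let W₀ : (ℤ → ℕ) → ℤ → ℕ → ℝ := fun l x => stk D (l x)
    have hW : Measurable W₀ := measurable_pi_lambda _ fun x =>
      (measurable_of_countable (stk D)).comp (measurable_pi_apply x)
    have hval : ∀ ω x k, W₀ ω x k = 0 ∨ W₀ ω x k = 1/2 ∨ W₀ ω x k = 1 :=
      fun ω x k => stk_values D _ _
    refine ⟨(ℤ → ℕ) × ((ℕ × ℤ × ℕ) → Bool), inferInstance,
      (Measure.infinitePi (fun _ : ℤ => geo)).prod coins, sW W₀, sX W₀, sE W₀, ?_⟩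
    refine ⟨inferInstance, measurable_sW hW, ?_, measurable_sX hW, rfl, ?_, ?_, fun _ _ => rfl,
      ?_, ?_⟩
    · have : sW W₀ = W₀ ∘ (Prod.fst : (ℤ → ℕ) × ((ℕ × ℤ × ℕ) → Bool) → (ℤ → ℕ)) := rfl
      rw [this, ← Measure.map_map hW measurable_fst, Measure.map_fst_prod]
      simp [labelLaw, W₀]
    · intro j θ x n h
      have e : sE W₀ (j+1) θ = leftover (sE W₀ j θ) (sX W₀ j θ) := rfl
      rw [e, leftover, if_pos h]
    · intro j θ x n h
      have e : sE W₀ (j+1) θ = leftover (sE W₀ j θ) (sX W₀ j θ) := rfl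
      rw [e, leftover, if_neg h]
    · intro j θ n
      have h := pos_succ (arrows (sE W₀ j θ) (sc θ j)) n
      have h' : sX W₀ j θ (n+1) = if arrows (sE W₀ j θ) (sc θ j) (sk W₀ j n θ).1
          (sk W₀ j n θ).2 then sX W₀ j θ n + 1 else sX W₀ j θ n - 1 := h
      rw [h']
      split_ifs
      · left; rfl
      · right; rfl
    · intro j n
      have h := condExp_step (Measure.infinitePi (fun _ : ℤ => geo)) hW hval j n
      refine h.trans ?_
      filter_upwards with θ
      have : sg W₀ j n θ = sE W₀ j θ (sk W₀ j n θ).1 (sk W₀ j n θ).2 := rfl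
      rw [this, sk_snd]
      rfl
  · -- every walker system has zero speed
    intro Θ _ μ W X env hsys
    have hprob := hsys.prob
    have hA := piles_ae (labelLaw (stk D)) hIID 0 (fun i => (i:ℤ) + 1)
      (fun i j h => by simpa using h)
      (big_law D 0 0 (by
        intro j k hk
        unfold stk
        rw [if_neg (by omega), if_neg (by omega), if_pos (by omega), if_pos hk]))
    have hB := piles_ae (labelLaw (stk D)) hIID 1 (fun i => -((i:ℤ) + 1))
      (fun i j h => by simpa using h)
      (big_law D 1 1 (by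
        intro j k hk
        unfold stk
        rw [if_neg (by omega), if_neg (by omega), if_neg (by omega), if_pos hk]))
    rw [← hsys.law_env] at hA hB
    have hA' := ae_of_ae_map hsys.meas_env.aemeasurable hA
    have hB' := ae_of_ae_map hsys.meas_env.aemeasurable hB
    have hforced : ∀ᵐ θ ∂μ, ∀ n : ℕ,
        (env 0 θ (X 0 θ n) ((Finset.range n).filter (fun m => X 0 θ m = X 0 θ n)).card = 0 →
          ¬ (X 0 θ (n+1) = X 0 θ n + 1)) ∧
        (env 0 θ (X 0 θ n) ((Finset.range n).filter (fun m => X 0 θ m = X 0 θ n)).card = 1 →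
          X 0 θ (n+1) = X 0 θ n + 1) := by
      rw [ae_all_iff]
      intro n
      have hR : MeasurableSet {θ | X 0 θ (n+1) = X 0 θ n + 1} := by
        have h1 : Measurable (fun θ => X 0 θ (n+1)) :=
          (measurable_pi_apply (n+1)).comp (hsys.meas_walk 0)
        have h2 : Measurable (fun θ => X 0 θ n) :=
          (measurable_pi_apply n).comp (hsys.meas_walk 0)
        exact measurableSet_eq_fun h1 (h2.add_const 1)
      have hle : MeasurableSpace.comap
          (fun θ => (W θ, (fun i : Fin 0 => X (i : ℕ) θ), (fun m : Fin (n+1) => X 0 θ (m : ℕ))))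
          inferInstance ≤ (inferInstance : MeasurableSpace Θ) := by
        apply Measurable.comap_le
        refine hsys.meas_env.prodMk (Measurable.prodMk ?_ ?_)
        · exact measurable_pi_lambda _ fun i => hsys.meas_walk i
        · exact measurable_pi_lambda _ fun m =>
            (measurable_pi_apply (m : ℕ)).comp (hsys.meas_walk 0)
      exact condExp_forced hR hle (hsys.transition 0 n)
    filter_upwards [hA', hB', hforced] with θ h1 h2 h3
    refine speed_zero (X 0 θ) (hsys.start 0 θ) (hsys.nearest 0 θ) (W θ) ?_ ?_ h1 h2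
    · intro n hn
      have h4 := (h3 n).1 (by rw [hsys.env_zero]; exact hn)
      rcases hsys.nearest 0 θ n with h | h
      · exact absurd h h4
      · exact h
    · intro n hn
      exact (h3 n).2 (by rw [hsys.env_zero]; exact hn)

end Pool.Agent.Results.MP_204ba2_pr.NoSpeedThreshold
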